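import Pool.Agent.Q35.TB.All

/-!
# Mazur's question for Calabi–Yau double covers of `(ℙ¹)ⁿ`, all their quadratic twists and all
extensions of bounded degree

`K` is a number field and `F` is a form over `K` of multidegree `(4, …, 4)` on `(ℙ¹)ⁿ` such that the
divisor `F = 0` is smooth. For an extension `L` of `K` and `e ∈ Lˣ` the double cover `X_e : w² = e F(x)` of
`(ℙ¹)ⁿ` over `L` is a Calabi–Yau variety of dimension `n`, for `n = 2` a K3 surface; these are the
quadratic twists of one of them. Through each point there are `n` curves of genus one, in the directions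
of the coordinates, and if `w ≠ 0` then the difference of the two points `(x, w)`, `(x, -w)` is a rational
point of the Jacobian of the curve; up to isomorphism it depends only on `x` and the direction, if we
consider the twist by `F(x)`, the only one for which `x` is the image of a rational point.

Let `D` be a natural number. All the finite sets below do not depend on the extension `L` of degree at
most `D`, the twist and the place.

(0) There are only finitely many points `z` of degree at most `D` over `K` of an affine chart for which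
these differences are torsion points, for all `n` directions.

Let `J` be a set of directions, neither empty nor the set of all directions. A plane in the directions
of `J` is *special* if on it the derivatives of `F` in the other directions are constant multiples
of `F`. There are only finitely many special planes (through `L`-points off the divisor `F = 0`) if
`n = 2`, and in general there are none.

There is a finite set `T` of points of `(ℙ¹)ⁿ` over the algebraic closure of `K` such that for all
extensions `L` of `K` of degree at most `D` over which there are only finitely many special planes, for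
all `e ∈ Lˣ` and for all places (that is, for all embeddings with dense image of `L` in a complete
nontrivially normed field `M`):

(1) If `P` is an `L`-point of `X_e` with `w ≠ 0`, not over `T` and not over a special plane, then the
`L`-points of `X_e` which are close to `P` are Zariski dense in `X_e`, i.e. `Z_P = X_e`.

(2) The sets `Z_x`, `x ∈ X_e(M)`, `w ≠ 0`, take only finitely many values.

(3) The sets `Z_x`, `x ∈ X_e(M)`, take only finitely many values, if this holds for the divisor
`F = 0`. (For `n = 2` this divisor has only finitely many `L`-points, by Faltings' theorem, so this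
condition is satisfied.)

Idea of the proof. If `z` is torsion in the direction `j`, then the abscissa of the torsion point is
bounded at all places, archimedean places with a factor which is a power of the order; this gives
`|∂_j F(z)|² ≤ C |F(z)| ‖z‖⁴…` at all places, with the same constants for all twists. The order is at
most a power of the logarithm of the height of `z`. If `z` is torsion in all directions then the product
over all places gives that the height of the point of the projective space whose coordinates are the
squares of all the derivatives of `F` is at most `4 h(z) + O(log h(z))`; but it is at least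
`8 h(z) - O(1)`, because the divisor is smooth. So `h(z)` is bounded (in terms of `D`). Similarly, on a
line in the direction `i` only finitely many points are torsion in the direction `j ≠ i`, unless `F`
divides the square of `∂_j F` on the line. So one can move the `L`-points from line to line, until one
reaches a special plane or the whole variety.

Projects TT and TB of helper35, with helpers 13, 26, 38, 53, 65, 68, 79, 121, 129, 137, 149, 150, 151,
153, 164, 182, 190, 192, 193, 208, 210, 222, 224, 237, 238, 275, 285.
-/

set_option autoImplicit false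

namespace Pool.Agent.Results.MP_f9f755_nt.CalabiYauTwists

open MvPolynomial

/-! ### Forms of multidegree `(4, …, 4)` and special planes -/

section forms

variable {K : Type} [Field K] {n : ℕ}

/-- The polynomial `F` over the extension `L` of `K`. -/
noncomputable abbrev baseChange (L : Type) [Field L] [Algebra K L] (F : MvPolynomial (Fin n × Fin 2) K) :
    MvPolynomial (Fin n × Fin 2) L := map (algebraMap K L) F

/-- `F` is a form of degree `4` in each pair of variables `(j, 0)`, `(j, 1)`, the coordinates of the
`j`-th factor of `(ℙ¹)ⁿ`. -/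
def IsForm (F : MvPolynomial (Fin n × Fin 2) K) : Prop :=
  ∀ m ∈ F.support, ∀ j, m (j, 0) + m (j, 1) = 4

/-- `x` is a vector of coordinates of a point of `(ℙ¹)ⁿ`. -/
def Proper {R : Type} [Zero R] (x : Fin n × Fin 2 → R) : Prop := ∀ j, ∃ b, x (j, b) ≠ 0

/-- The divisor `F = 0` in `(ℙ¹)ⁿ` is smooth. -/
def Smooth (F : MvPolynomial (Fin n × Fin 2) K) : Prop :=
  ∀ x : Fin n × Fin 2 → AlgebraicClosure K, Proper x → ∃ p, aeval x (pderiv p F) ≠ 0

/-- The plane through `X` in the directions of `J` is special: for the points `Y` of this plane the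
derivatives of `F` in the other directions are constant multiples of `F`. -/
def Special (F : MvPolynomial (Fin n × Fin 2) K) (X : Fin n × Fin 2 → K) (J : Finset (Fin n)) :
    Prop :=
  ∀ k, k ∉ J → ∀ b, ∃ c : K, ∀ Y : Fin n × Fin 2 → K, (∀ j, j ∉ J → ∀ a, Y (j, a) = X (j, a)) →
    eval Y (pderiv (k, b) F) = c * eval Y F

/-- The plane through the point with the coordinates `X` in the directions of `J`. -/
def plane (X : Fin n × Fin 2 → K) (J : Finset (Fin n)) : Set (Fin n × Fin 2 → K) :=
  {Y | ∀ j, j ∉ J → ∃ a : K, a ≠ 0 ∧ ∀ b, Y (j, b) = a * X (j, b)}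

/-- There are only finitely many special planes through `K`-points off the divisor `F = 0` (in the
directions of sets `J` which are neither empty nor the set of all directions). -/
def FinitelyManySpecial (F : MvPolynomial (Fin n × Fin 2) K) : Prop :=
  ∀ J : Finset (Fin n), J.Nonempty → J ≠ Finset.univ →
    {P | ∃ X, eval X F ≠ 0 ∧ Special F X J ∧ P = plane X J}.Finite

/-- The point `X` does not lie on a special plane. -/
def OffSpecial (F : MvPolynomial (Fin n × Fin 2) K) (X : Fin n × Fin 2 → K) : Prop :=
  ∀ J : Finset (Fin n), J.Nonempty → J ≠ Finset.univ → ¬ Special F X J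

end forms

/-! ### Torsion -/

section torsion

variable {K : Type} [Field K] {n : ℕ}

/-- The polynomial `F(1, z₁; …; 1, z_j + t; …; 1, z_n)` in `t`. -/
noncomputable def line (F : MvPolynomial (Fin n × Fin 2) K) (z : Fin n → K) (j : Fin n) :
    Polynomial K :=
  aeval (fun p : Fin n × Fin 2 => if p.2 = 0 then 1 else
    Polynomial.C (z p.1) + if p.1 = j then Polynomial.X else 0) F

/-- The Jacobian (cubic resolvent) of the curve `w² = d q(t)`, `d = q(0)`, for a polynomial `q` of
degree at most `4`. -/
noncomputable def jacobian (q : Polynomial K) : WeierstrassCurve K :=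
  let d := q.coeff 0
  ⟨0, d * q.coeff 2, 0, d ^ 2 * (q.coeff 1 * q.coeff 3 - 4 * d * q.coeff 4),
    d ^ 3 * (q.coeff 1 ^ 2 * q.coeff 4 + d * q.coeff 3 ^ 2 - 4 * d * q.coeff 2 * q.coeff 4)⟩

/-- The first coordinate, on the Jacobian, of the difference of the points `(0, d)` and `(0, -d)` of
this curve. -/
noncomputable def abscissa (q : Polynomial K) : K := q.coeff 1 ^ 2 / 4 - q.coeff 0 * q.coeff 2

/-- The second coordinate. -/
noncomputable def ordinate (q : Polynomial K) : K :=
  (q.coeff 1 * abscissa q + 2 * q.coeff 0 ^ 2 * q.coeff 3) / 2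

/-- The point `(x, y)` is a torsion point of the curve `W`. -/
def IsTorsion (W : WeierstrassCurve K) (x y : K) : Prop :=
  letI : DecidableEq K := Classical.decEq K
  ∃ (h : W.toAffine.Nonsingular x y) (N : ℕ), N ≠ 0 ∧ N • (.some x y h : W.toAffine.Point) = 0

/-- The point `z` is torsion in the direction `j`: with `q(t) = F(1, z₁; …; 1, z_j + t; …; 1, z_n)`,
the number `d = q(0) = F(z)` is not zero, the curve `w² = d q(t)` has genus one, and the difference of
its points `(0, d)` and `(0, -d)` is torsion. -/
def Torsion (F : MvPolynomial (Fin n × Fin 2) K) (z : Fin n → K) (j : Fin n) : Prop :=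
  (line F z j).coeff 0 ≠ 0 ∧ (jacobian (line F z j)).Δ ≠ 0 ∧
    IsTorsion (jacobian (line F z j)) (abscissa (line F z j)) (ordinate (line F z j))

end torsion

/-! ### Local Zariski closures -/

section loc

variable {K L : Type} [Field K] [NontriviallyNormedField L] {n : ℕ}

/-- The ideal of `Z_P` for the point `P = (w, x)` of `w² = F(x)`: the polynomials over `K` in `w`
(`none`) and the coordinates which vanish at all coordinate vectors of the `K`-points of `w² = F(x)`
close to `P`. -/
def closureIdeal (σ : K →+* L) (F : MvPolynomial (Fin n × Fin 2) K) (w : L)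
    (x : Fin n × Fin 2 → L) : Set (MvPolynomial (Option (Fin n × Fin 2)) K) :=
  {g | ∃ U ∈ nhds (w, x), ∀ (W : K) (X : Fin n × Fin 2 → K), Proper X → W ^ 2 = eval X F →
    (∃ a : Fin n → L, (∀ j, a j ≠ 0) ∧
      ((∏ j, a j) ^ 2 * σ W, fun p => a p.1 * σ (X p)) ∈ U) →
    ∀ a : Fin n → K, eval (fun o => o.elim ((∏ j, a j) ^ 2 * W) fun p => a p.1 * X p) g = 0}

/-- The ideal of `Z_P` for the point `P = x` of the divisor `F = 0`. -/
def divisorIdeal (σ : K →+* L) (F : MvPolynomial (Fin n × Fin 2) K) (x : Fin n × Fin 2 → L) :
    Set (MvPolynomial (Fin n × Fin 2) K) :=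
  {g | ∃ U ∈ nhds x, ∀ X : Fin n × Fin 2 → K, Proper X → eval X F = 0 →
    (∃ a : Fin n → L, (∀ j, a j ≠ 0) ∧ (fun p => a p.1 * σ (X p)) ∈ U) →
    ∀ a : Fin n → K, eval (fun p => a p.1 * X p) g = 0}

/-- The closures `Z_x` of all points with `w ≠ 0` of the double cover `w² = G(x)` over `L`. -/
def closuresOff (σ : K →+* L) (G : MvPolynomial (Fin n × Fin 2) K) :
    Set (Set (MvPolynomial (Option (Fin n × Fin 2)) K)) :=
  {J | ∃ (w : L) (x : Fin n × Fin 2 → L), w ≠ 0 ∧ w ^ 2 = eval₂ σ x G ∧ J = closureIdeal σ G w x}

/-- The closures `Z_x` of all points of the double cover `w² = G(x)` over `L`. -/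
def closures (σ : K →+* L) (G : MvPolynomial (Fin n × Fin 2) K) :
    Set (Set (MvPolynomial (Option (Fin n × Fin 2)) K)) :=
  {J | ∃ (w : L) (x : Fin n × Fin 2 → L), Proper x ∧ w ^ 2 = eval₂ σ x G ∧
    J = closureIdeal σ G w x}

/-- The closures `Z_x` of all points over `L` of the divisor `F = 0`. -/
def divisorClosures (σ : K →+* L) (F : MvPolynomial (Fin n × Fin 2) K) :
    Set (Set (MvPolynomial (Fin n × Fin 2) K)) :=
  {J | ∃ x : Fin n × Fin 2 → L, Proper x ∧ eval₂ σ x F = 0 ∧ J = divisorIdeal σ F x}

/-- The `K`-points of `w² = G(x)` which are close to the `K`-point `(W, X)` are Zariski dense: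
`Z_P` is the whole double cover. -/
def DenseNear (σ : K →+* L) (G : MvPolynomial (Fin n × Fin 2) K) (W : K)
    (X : Fin n × Fin 2 → K) : Prop :=
  ∀ g ∈ closureIdeal σ G (σ W) (fun p => σ (X p)), (MvPolynomial.X none ^ 2 - rename some G) ∣ g

end loc

/-- The point with the coordinates `X` does not lie in the set of the points of `(ℙ¹)ⁿ` over the
algebraic closure with the coordinates `t`, `t ∈ T`. -/
def Avoids {K L : Type} [Field K] [Field L] [Algebra K L] {n : ℕ}
    (T : Set (Fin n × Fin 2 → AlgebraicClosure K)) (X : Fin n × Fin 2 → L) : Prop :=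
  ∀ φ : L →ₐ[K] AlgebraicClosure K, ∀ t ∈ T, ∀ a : Fin n → AlgebraicClosure K,
    (fun p => φ (X p)) ≠ fun p => a p.1 * t p

section aux

open Pool.Agent.Q35.TT Pool.Agent.Y720.MZ

variable {K : Type} [Field K] {n : ℕ}

lemma line_eval (F : MvPolynomial (Fin n × Fin 2) K) (z : Fin n → K) (j : Fin n) (t : K) :
    (line F z j).eval t = eval (Function.update z j (z j + t)) (ch F fun _ => 0) := by
  rw [Pool.Agent.Q182.TT.CHF.eval_ch]
  unfold line
  rw [← Polynomial.coe_evalRingHom, ← MvPolynomial.coe_aeval_eq_eval]
  change (Polynomial.evalRingHom t) (aeval _ F) = (aeval _) F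
  rw [map_aeval]
  have e1 : (Polynomial.evalRingHom t).comp (algebraMap K (Polynomial K)) = algebraMap K K := by
    ext x
    simp
  rw [e1]
  change eval₂Hom _ _ F = eval₂Hom _ _ F
  congr 2
  funext p
  unfold Pool.Agent.Q35.TT.pt
  rcases p with ⟨i, b⟩
  by_cases hb : b = 0
  · simp [hb]
  · by_cases hi : i = j
    · subst hi
      simp [hb]
    · simp [hb, hi]

lemma line_eq [CharZero K] {F : MvPolynomial (Fin n × Fin 2) K}
    (hf : ∀ j, (ch F fun _ => 0).degreeOf j ≤ 4) (z : Fin n → K) (j : Fin n) :
    line F z j = qpol (bq (lc (ch F fun _ => 0) (af z) j) ![1, z j])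
      (tay (lc (ch F fun _ => 0) (af z) j) (z j) 0) (tay (lc (ch F fun _ => 0) (af z) j) (z j) 1)
      (tay (lc (ch F fun _ => 0) (af z) j) (z j) 2)
      (tay (lc (ch F fun _ => 0) (af z) j) (z j) 3) := by
  have : Infinite K := CharZero.infinite K
  apply Polynomial.funext
  intro t
  rw [line_eval, ← Pool.Agent.Q192.TT.bq_lc _ hf z j (z j + t)]
  simp only [qpol, Polynomial.eval_add, Polynomial.eval_mul, Polynomial.eval_C, Polynomial.eval_X,
    Polynomial.eval_pow, bq, tay, Matrix.cons_val_zero, Matrix.cons_val_one, Matrix.cons_val]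
  ring

/-- the condition is the one of the project -/
lemma torN_of [CharZero K] {F : MvPolynomial (Fin n × Fin 2) K}
    (hf : ∀ j, (ch F fun _ => 0).degreeOf j ≤ 4) {z : Fin n → K} {j : Fin n}
    (h : Torsion F z j) : TorN (ch F fun _ => 0) z j := by
  obtain ⟨h0, hd, hN, N, hN0, hN⟩ := h
  set a := lc (ch F fun _ => 0) (af z) j with ha
  set s := z j with hs
  obtain ⟨c0, c1, c2, c3, c4⟩ := qpol_coeff (bq a ![1, s]) (tay a s 0) (tay a s 1) (tay a s 2)
    (tay a s 3)
  have hl := line_eq hf z j
  rw [← ha, ← hs] at hl
  rw [← hl] at c0 c1 c2 c3 c4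
  rw [c0] at h0
  refine ⟨N, hN0, ?_⟩
  unfold TorT
  rw [Pool.Agent.Q190.TT.tor_iff _ _ _ _ _ h0]
  have ej : jacobian (line F z j) = cv (bq a ![1, s] * tay a s 1)
      (bq a ![1, s] ^ 2 * (tay a s 0 * tay a s 2 - 4 * bq a ![1, s] * tay a s 3))
      (bq a ![1, s] ^ 3 * (tay a s 0 ^ 2 * tay a s 3 + bq a ![1, s] * tay a s 2 ^ 2 -
        4 * bq a ![1, s] * tay a s 1 * tay a s 3)) := by
    simp only [jacobian, cv, c0, c1, c2, c3, c4]
  have ex : abscissa (line F z j) =
      bq a ![1, s] * (tay a s 0 ^ 2 / (4 * bq a ![1, s]) - tay a s 1) := by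
    simp only [abscissa, c0, c1, c2]
    field_simp
  have ey : ordinate (line F z j) = bq a ![1, s] ^ 2 *
      (tay a s 0 * (tay a s 0 ^ 2 / (4 * bq a ![1, s]) - tay a s 1) +
        2 * bq a ![1, s] * tay a s 2) / (2 * bq a ![1, s]) := by
    simp only [ordinate, ex, c0, c1, c3]
    field_simp
  refine ⟨h0, by ring, ?_, ?_⟩
  · intro h
    apply hd
    rw [ej, cv_Δ, Pool.Agent.Q190.TT.dsc_TP, h]
    ring
  · have h1 : ∃ h : (jacobian (line F z j)).toAffine.Nonsingular (abscissa (line F z j))
        (ordinate (line F z j)),
        letI : DecidableEq K := Classical.decEq K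
        N • (.some _ _ h : (jacobian (line F z j)).toAffine.Point) = 0 := ⟨_, hN⟩
    rw [ej, ex, ey] at h1
    exact h1

/-- a point with `w ≠ 0` is a point of `(ℙ¹)ⁿ` -/
lemma proper_of {G : MvPolynomial (Fin n × Fin 2) K} (hG : IsForm G) {e W : K}
    {X : Fin n × Fin 2 → K} (hW : W ≠ 0) (h : W ^ 2 = eval X (C e * G)) : Proper X := by
  intro j
  by_contra hcon
  push Not at hcon
  apply hW
  have h0 : eval X G = 0 := by
    rw [eval_eq]
    refine Finset.sum_eq_zero fun m hm => ?_
    have h1 := hG m hm j
    obtain ⟨b, hb⟩ : ∃ b : Fin 2, m (j, b) ≠ 0 := by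
      by_cases h2 : m (j, 0) = 0
      · exact ⟨1, by omega⟩
      · exact ⟨0, h2⟩
    have h3 : ∏ i ∈ m.support, X i ^ m i = 0 :=
      Finset.prod_eq_zero (Finsupp.mem_support_iff.2 hb) (by rw [hcon b, zero_pow hb])
    rw [h3, mul_zero]
  rw [map_mul, h0, mul_zero] at h
  exact pow_eq_zero_iff two_ne_zero |>.1 h

end aux

/-- **Torsion points of bounded degree and Mazur's question for all quadratic twists over all extensions
of bounded degree.** -/
theorem result (K : Type) [Field K] [NumberField K] (n : ℕ) (F : MvPolynomial (Fin n × Fin 2) K)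
    (hF : IsForm F) (hs : Smooth F) (D : ℕ) :
    -- (0) only finitely many points of degree at most `D` are torsion in all directions
    (∃ T : Set (Fin n → AlgebraicClosure K), T.Finite ∧
      ∀ (L : Type) [Field L] [NumberField L] [Algebra K L], Module.finrank K L ≤ D →
        ∀ z : Fin n → L, (∀ j, Torsion (baseChange L F) z j) → ∀ φ : L →ₐ[K] AlgebraicClosure K,
          (fun j => φ (z j)) ∈ T) ∧
    -- on surfaces there are only finitely many special lines
    (n = 2 → ∀ (L : Type) [Field L] [NumberField L] [Algebra K L], FinitelyManySpecial (baseChange L F)) ∧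
    -- Mazur's question, one finite set for all extensions of degree at most `D`, all quadratic
    -- twists `w² = e F(x)` and all places `σ : L → M`
    ∃ T : Set (Fin n × Fin 2 → AlgebraicClosure K), T.Finite ∧
      ∀ (L : Type) [Field L] [NumberField L] [Algebra K L], Module.finrank K L ≤ D →
      FinitelyManySpecial (baseChange L F) → ∀ e : L, e ≠ 0 →
      ∀ (M : Type) [NontriviallyNormedField M] [CompleteSpace M] (σ : L →+* M), DenseRange σ →
        -- (1) the local closures at the rational points
        (∀ (W : L) (X : Fin n × Fin 2 → L), W ≠ 0 → W ^ 2 = eval X (C e * baseChange L F) →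
          Avoids T X → OffSpecial (baseChange L F) X →
          DenseNear σ (C e * baseChange L F) W X) ∧
        -- (2) off the branch divisor
        (closuresOff σ (C e * baseChange L F)).Finite ∧
        -- (3) reduction to the branch divisor
        ((divisorClosures σ (baseChange L F)).Finite →
          (closures σ (C e * baseChange L F)).Finite) := by
  have h0 := Pool.Agent.Q35.TB.taf2
  have h1 := Pool.Agent.Q35.TT.mzf2
  have h2 := Pool.Agent.Q182.TT.CHF.chf
  have h3 := Pool.Agent.Q35.TT.fsf2
  have h4 := Pool.Agent.Q35.TB.mzx2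
  have h5 := Pool.Agent.Q35.TB.exf2
  obtain ⟨hd, hsm, -⟩ := h2 K n F hF (fun _ => 0)
  refine ⟨?_, ?_, ?_⟩
  · obtain ⟨T, hT, hT2⟩ := h0 K n _ hd (hsm hs) D
    refine ⟨T, hT, fun L _ _ _ hL z hz φ => hT2 L hL z (fun j => ?_) φ⟩
    have : Algebra.IsAlgebraic K L := by
      have : FiniteDimensional K L := Module.Finite.of_restrictScalars_finite ℚ K L
      infer_instance
    obtain ⟨g1, g2, g3, -⟩ := h5 K L n F hF
    obtain ⟨hd', -, -⟩ := h2 L n _ g1 (fun _ => 0)
    have h := torN_of hd' (hz j)
    rwa [g3] at h
  · rintro rfl L _ _ _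
    have : Algebra.IsAlgebraic K L := by
      have : FiniteDimensional K L := Module.Finite.of_restrictScalars_finite ℚ K L
      infer_instance
    obtain ⟨g1, g2, -⟩ := h5 K L 2 F hF
    exact h3 L _ g1 (g2.1 hs)
  · obtain ⟨T, hT, hT2⟩ := h4 K n F hF hs D
    refine ⟨T, hT, fun L _ _ _ hL hfin e he M _ _ σ hσ => ?_⟩
    have : Algebra.IsAlgebraic K L := by
      have : FiniteDimensional K L := Module.Finite.of_restrictScalars_finite ℚ K L
      infer_instance
    obtain ⟨g1, g2, -⟩ := h5 K L n F hF
    obtain ⟨T', -, hT'⟩ := h1 L n _ g1 (g2.1 hs) hfin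
    refine ⟨fun W X hW hWX hX hsp => ?_, (hT' e he M σ hσ).2.1, (hT' e he M σ hσ).2.2⟩
    refine hT2 L hL hfin e he M σ hσ W X ?_ hW hWX hX hsp
    exact proper_of g1 hW hWX

end Pool.Agent.Results.MP_f9f755_nt.CalabiYauTwists
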