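import Pool.Agent.Q35.ST.All
import Pool.Agent.Q35.ST.Main2

/-!
# Mazur's question for smooth hypersurfaces of multidegree at most two

`K` is a field of characteristic zero (for instance a number field), `L` is a nontrivially normed
field with a homomorphism `σ : K →+* L` of dense range (for instance the completion of `K` at a
place). Let `X = {F = 0} ⊆ ℙ^{n₁} × … × ℙ^{n_r}` be a smooth hypersurface of multidegree
`(d₁, …, d_r)`, where all `n_l ≥ 2` and `1 ≤ d_l ≤ 2`; for instance a hypersurface of multidegree
`(2, …, 2)` in a product of projective planes (a conic bundle in `r` ways; for `r = 2` a Verra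
threefold).

(1) The local Zariski closures `Z_x`, `x ∈ X(L)`, take only finitely many values.

(2) More precisely, call a point `x` of `X(L)` special if there is a nonempty set `S` of factors,
such that over `x_S` all partial derivatives of `F` in the directions of the factors in `S` are
constant multiples of `F` (so they vanish on the whole fibre of `X` over `x_S`). If `x` is not
special then `Z_x` is empty or `X`.

(3) The special points lie in the fibres of `X` over finitely many points `p_S` (for some nonempty
sets `S` of factors), hence in a closed subset of codimension at least two.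

In (1), (2) and (3) we work with multihomogeneous coordinates.

Idea of the proof. The ideal of `Z_x` is preserved by the vector fields
`∂F/∂x_{l,i} ∂/∂x_{l,j} - ∂F/∂x_{l,j} ∂/∂x_{l,i}`, since through every `K`-point there are conics
over `K` (or lines) in `X` in these directions. So its minimal primes `P` are preserved, too. We
classify the irreducible closed subsets of `X` over an algebraically closed field which are
preserved: let `S` be the set of the directions in which all derivatives of `F` vanish on `P`. Then
over a general point of the projection of `V(P)` to the factors in `S` the variety `V(P)` contains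
the whole fibre of `X`. Here one shows that an irreducible subvariety which is preserved by the
fields in the directions of `T`, on which `F` is smooth in the directions of `T` and which is not
critical for any of the directions in `T` is `X`: otherwise it would be a component of a product of
curves in the factors, and then there are points on it at which `X` is singular. So on `V(P)` the
derivatives in the directions of `S` are proportional to `F` along the fibres, and the smoothness
of `X` implies that the projection of `V(P)` to the factors in `S` is a point from a finite set.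
-/

set_option autoImplicit false

namespace Pool.Agent.Results.MP_f9f755_nt.MultidegreeTwo

open MvPolynomial

/-- The multihomogeneous coordinates of `ℙ^{n₁} × … × ℙ^{n_r}`. -/
abbrev Vars {r : ℕ} (n : Fin r → ℕ) : Type := (l : Fin r) × Fin (n l + 1)

/-- `F` is a form of degree `d l` in the coordinates of the factor `l`, for all `l`. -/
def MultiHomogeneous {r : ℕ} {n : Fin r → ℕ} (d : Fin r → ℕ) {K : Type} [Field K]
    (F : MvPolynomial (Vars n) K) : Prop :=
  ∀ m ∈ F.support, ∀ l, ∑ i, m ⟨l, i⟩ = d l

/-- The coordinates of no factor are all zero. -/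
def Proper {r : ℕ} {n : Fin r → ℕ} {K : Type} [Zero K] (z : Vars n → K) : Prop :=
  ∀ l, ∃ i, z ⟨l, i⟩ ≠ 0

/-- The hypersurface `F = 0` is smooth. -/
def Smooth {r : ℕ} {n : Fin r → ℕ} {K : Type} [Field K] (F : MvPolynomial (Vars n) K) : Prop :=
  ∀ z : Vars n → AlgebraicClosure K, Proper z → aeval z F = 0 → ∃ s, aeval z (pderiv s F) ≠ 0

/-- The multihomogeneous ideal of the local Zariski closure `Z_x` of the set of the `K`-points of
the hypersurface `F = 0`: the polynomials `g` all of whose multihomogeneous components vanish at all
`K`-points `y` of `F = 0` which are sufficiently close to `x`. (Here `y` is close to `x` if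
coordinates of `y` over `L` can be chosen close to those of `x`.) -/
def closureIdeal {r : ℕ} {n : Fin r → ℕ} {K : Type} [Field K] {L : Type}
    [NontriviallyNormedField L] (σ : K →+* L) (F : MvPolynomial (Vars n) K) (x : Vars n → L) :
    Set (MvPolynomial (Vars n) K) :=
  {g | ∃ U ∈ nhds x, ∀ y : Vars n → K, Proper y → eval y F = 0 →
    (∃ c : Fin r → L, (∀ l, c l ≠ 0) ∧ (fun s => c s.1 * σ (y s)) ∈ U) →
      ∀ t : Fin r → K, eval (fun s => t s.1 * y s) g = 0}

/-- The point `x` is special with respect to the set `S` of factors, which is not empty: on the set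
of all points with the same coordinates as `x` in the factors in `S` all partial derivatives of `F`
in the directions of the factors in `S` are constant multiples of `F`. -/
def SpecialIn {r : ℕ} {n : Fin r → ℕ} {K : Type} [Field K] {L : Type} [Field L] (σ : K →+* L)
    (F : MvPolynomial (Vars n) K) (S : Finset (Fin r)) (x : Vars n → L) : Prop :=
  S.Nonempty ∧ ∀ s : Vars n, s.1 ∈ S → ∃ c : L, ∀ y : Vars n → L,
    (∀ t : Vars n, t.1 ∈ S → y t = x t) → eval₂ σ y (pderiv s F) = c * eval₂ σ y F

section aux

variable {r : ℕ} {n : Fin r → ℕ} {K : Type} [Field K] {L : Type} [NontriviallyNormedField L]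
  {σ : K →+* L} {F : MvPolynomial (Vars n) K}

open Pool.Agent.TH178.MZ Pool.Agent.Q35.ST

lemma scale_eq {R : Type} [CommMonoid R] (c : Fin r → R) (z : Vars n → R) :
    scale (fun (s : Vars n) (k : Fin r) => if s.1 = k then 1 else 0) c z =
      fun s => c s.1 * z s := by
  funext s
  unfold scale
  congr 1
  rw [Finset.prod_eq_single s.1]
  · simp
  · intro j _ hj
    simp [Ne.symm hj]
  · intro h; exact absurd (Finset.mem_univ _) h

lemma closureIdeal_eq (hσ : DenseRange σ) {d : Fin r → ℕ} (hF : MultiHomogeneous d F)
    {x : Vars n → L} (hx : Proper x) :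
    closureIdeal σ F x = (LI σ {y | eval y F = 0} x : Set (MvPolynomial (Vars n) K)) := by
  have h1 := coneIdeal_eq σ hσ (fun (s : Vars n) (k : Fin r) => if s.1 = k then 1 else 0)
    (S := {y : Vars n → K | Proper y ∧ eval y F = 0}) (by
      rintro y ⟨hy, hyF⟩ t ht
      rw [scale_eq]
      refine ⟨fun l => ?_, ?_⟩
      · obtain ⟨i, hi⟩ := hy l
        exact ⟨i, mul_ne_zero (ht l) hi⟩
      · have hF' : MH Set.univ d F := fun m hm l _ => hF m hm l
        rw [hF'.eval_scale t y, hyF, mul_zero]) x
  have h2 : closureIdeal σ F x = localIdeal σ {y : Vars n → K | Proper y ∧ eval y F = 0} x := by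
    rw [← h1]
    unfold closureIdeal
    ext g
    simp only [Set.mem_ofPred_eq, scale_eq]
    constructor
    · rintro ⟨U, hU, h⟩
      exact ⟨U, hU, fun y hy hc t => h y hy.1 hy.2 hc t⟩
    · rintro ⟨U, hU, h⟩
      exact ⟨U, hU, fun y hy hyF hc t => h y ⟨hy, hyF⟩ hc t⟩
  rw [h2, coe_LI]
  have hopen : IsOpen {z : Vars n → L | Proper z} := by
    have : {z : Vars n → L | Proper z} = ⋂ l, ⋃ i, {z | z ⟨l, i⟩ ≠ 0} := by
      ext z; simp [Proper]
    rw [this]
    refine isOpen_iInter_of_finite (fun l => isOpen_iUnion (fun i => ?_))
    exact isOpen_ne_fun (continuous_apply _) continuous_const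
  refine localIdeal_congr σ (hopen.mem_nhds hx) (fun y hy => ?_)
  have hy' : Proper y := by
    intro l
    obtain ⟨i, hi⟩ := hy l
    exact ⟨i, fun h => hi (by show σ (y ⟨l, i⟩) = 0; rw [h, map_zero])⟩
  exact ⟨fun h => h.2, fun h => ⟨hy', h⟩⟩

end aux

/-- **Mazur's question for smooth hypersurfaces of multidegree at most two.** -/
theorem result (K : Type) [Field K] [CharZero K] (L : Type) [NontriviallyNormedField L]
    (σ : K →+* L) (hσ : DenseRange σ) (r : ℕ) (n d : Fin r → ℕ) (hn : ∀ l, 2 ≤ n l)
    (hd : ∀ l, 1 ≤ d l ∧ d l ≤ 2) (F : MvPolynomial (Vars n) K) (hF : MultiHomogeneous d F)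
    (hsm : Smooth F) :
    -- (1) finitely many local Zariski closures
    {J : Set (MvPolynomial (Vars n) K) | ∃ x : Vars n → L, Proper x ∧ eval₂ σ x F = 0 ∧
      J = closureIdeal σ F x}.Finite ∧
    -- (2) at the points which are not special they are empty or the whole hypersurface
    (∀ x : Vars n → L, Proper x → (∀ S, ¬ SpecialIn σ F S x) →
      closureIdeal σ F x = Set.univ ∨
      closureIdeal σ F x = (Ideal.span {F} : Ideal (MvPolynomial (Vars n) K))) ∧
    -- (3) the special points lie over finitely many points in the special directions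
    (∃ E : Finset (Finset (Fin r) × (Vars n → L)), ∀ (S : Finset (Fin r)) (x : Vars n → L),
      Proper x → eval₂ σ x F = 0 → SpecialIn σ F S x →
        ∃ p, (S, p) ∈ E ∧ Proper p ∧ eval₂ σ p F = 0 ∧
          ∀ l ∈ S, ∃ c : L, ∀ i, x ⟨l, i⟩ = c * p ⟨l, i⟩) := by
  open Pool.Agent.Q35.ST in
  have hF' : MH Set.univ d F := fun m hm l _ => hF m hm l
  have hd0 : ∀ l, d l ≠ 0 := fun l => by have := (hd l).1; omega
  have hsm' : Smth (map (algebraMap K (AlgebraicClosure K)) F) := by
    intro z hz hzF
    rw [eval_map] at hzF
    obtain ⟨s, hs⟩ := hsm z (fun l => hz l (Set.mem_univ _)) hzF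
    exact ⟨s, by rw [pderiv_map, eval_map]; exact hs⟩
  have hspec : ∀ (S : Finset (Fin r)) (x : Vars n → L), SpecialIn σ F S x ↔ SpecIn (map σ F) S x := by
    intro S x
    unfold SpecialIn SpecIn
    simp only [pderiv_map, eval_map]
  have hCZ : CharZero L := charZero_of_injective_ringHom σ.injective
  refine ⟨?_, ?_, ?_⟩
  · have h := LI_finite sA sMIN sU sRI hσ hF' hd0 (fun l => (hd l).2) hn hsm'
    refine (h.image (fun J : Ideal (MvPolynomial (Vars n) K) => (J : Set (MvPolynomial (Vars n) K)))).subset ?_
    rintro _ ⟨x, hx, -, rfl⟩
    exact ⟨_, ⟨x, fun l _ => hx l, rfl⟩, (closureIdeal_eq hσ hF hx).symm⟩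
  · intro x hx hsp
    rw [closureIdeal_eq hσ hF hx]
    have h := LI_eq' sA sMIN sU sRI hσ hF' hd0 (fun l => (hd l).2) hn hsm' (x := x)
      (fun l _ => hx l) (fun S hS => hsp S ((hspec S x).2 hS))
    rcases h with h | h
    · left; rw [h]; rfl
    · right; rw [h]
  · obtain ⟨E, hE⟩ := spec_finite (G := map σ F) sMIN sU (hF'.map σ) hd0 hn (by
      rw [map_map]; exact smth_ext hsm' _)
    refine ⟨E, fun S x hx hxF hS => ?_⟩
    obtain ⟨p, h1, h2, h3, h4⟩ := hE S x (fun l _ => hx l) (by rw [eval_map]; exact hxF)
      ((hspec S x).1 hS)
    exact ⟨p, h1, fun l => h2 l (Set.mem_univ _), by rw [← eval_map]; exact h3, h4⟩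

end Pool.Agent.Results.MP_f9f755_nt.MultidegreeTwo
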