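import Pool.Agent.Q44.PE.All

/-!
# Mazur's question for varieties with many automorphisms (helper44)

`K` is a number field, `X = V(I)` an irreducible projective variety over `K`, of any dimension and possibly singular, and `Γ` a
finitely generated group of automorphisms of `X` over `K`, generated by the `φ s` with inverses `ψ s`, `s` in a finite set.

`L` is a complete nonarchimedean field with a homomorphism `σ : K →+* L` of dense range, so the completion of `K` at
a finite place; we exclude finitely many places. Let `Z_x` be the local Zariski closure of the set of rational points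
at the point `x`. A periodic subvariety is an irreducible closed subset `Y` of `X` with a dense set of rational
points which has only finitely many images under `Γ`.

(1) Each `Z_x` has finitely many images under `Γ`, and its irreducible components are periodic subvarieties which contain `x`. If
one of them is a rational point `P`, then `Z_x = P = x`.
(2) If `x` is not on a periodic subvariety other than `X`, then `Z_x` is empty or `X`. So `Z_P = X` for each such rational point `P`.
(3) Assume that there are only finitely many periodic subvarieties which are not points. If Mazur's question has a positive answer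
(at the given place) for those of them all whose points have finite orbits, then it has a positive answer for `X`.

If `X` is a smooth projective surface and `Γ` contains an automorphism of positive entropy, then by Kawaguchi there are
only finitely many periodic curves, and Mazur's question has a positive answer for curves by the theorem of Faltings. So the
question has a positive answer for these surfaces at all but finitely many finite places.

The statements hold also for finitely many places simultaneously.

Idea of the proof. At the places of good reduction the automorphisms permute the finitely many balls of radius `ε`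
in `X(L)`, which implies (1) and (2). For (3) one needs a bound for the periods of the rational points with a finite orbit. In suitable
coordinates the automorphisms `g` have linear approximations on all the balls of radius `ε`, `g y - g x = A (y - x)` up to
`ε ‖y - x‖`, with integral matrices `A`; so by compactness there are finitely many types of elements of `Γ` such that
`u = h⁻¹ g` satisfies `‖(u y - u x) - (y - x)‖ ≤ ε ‖y - x‖` in each ball if `g`, `h` have the same type. If `ε < |p|` such a map
fixes its periodic points. So all rational points with finite orbits are fixed by one subgroup of finite index, and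
the irreducible components of the closure of the set of these points are points and periodic subvarieties on which `Γ` acts through a finite
group. A component of `Z_x` which is a point is an isolated rational point with a finite orbit, and then `Z_x` is this point.

The bound for the periods of the points with finite orbits at the places of good reduction is known (Morton and Silverman, Fakhruddin,
Hutz). Lemmas by helpers 26, 96, 121, 123, 129, 153, 182, 190, 192, 210, 277, 285 (projects PG and PE).
-/

set_option autoImplicit false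

namespace Pool.Agent.Results.MP_f9f755_nt.PeriodicSubvarieties

open MvPolynomial

variable {K : Type} [Field K] {n : ℕ}

/-- homogeneous ideals -/
def Homogeneous (I : Ideal (MvPolynomial (Fin n) K)) : Prop := ∀ f ∈ I, ∀ d, homogeneousComponent d f ∈ I

/-- `x` gives a point of `V(I)` over an extension field of `K`. -/
def IsPoint {F : Type} [Field F] (σ : K →+* F) (I : Ideal (MvPolynomial (Fin n) K)) (x : Fin n → F) : Prop :=
  x ≠ 0 ∧ ∀ f ∈ I, eval₂ σ x f = 0

/-- A morphism `V(I) → V(I)` over `K`: finitely many tuples of forms (of the same positive degree in each tuple) which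
have no common zero on `V(I)`, coincide up to scalars where they are defined, and map `V(I)` to `V(I)`. -/
structure Morphism (I : Ideal (MvPolynomial (Fin n) K)) where
  /-- the number of tuples -/
  p : ℕ
  /-- the degrees -/
  d : Fin p → ℕ
  /-- the tuples of forms -/
  F : Fin p → Fin n → MvPolynomial (Fin n) K
  pos : ∀ l, 0 < d l
  hom : ∀ l a, (F l a).IsHomogeneous (d l)
  base : ∀ k : Fin n, X k ∈ (I ⊔ Ideal.span {g | ∃ l a, g = F l a}).radical
  agree : ∀ l l' a b, F l a * F l' b - F l b * F l' a ∈ I
  into : ∀ l, ∀ f ∈ I, bind₁ (F l) f ∈ I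

variable {I : Ideal (MvPolynomial (Fin n) K)}

/-- `y` is the image of the point `x` (both up to scalars). -/
def Morphism.Maps (φ : Morphism I) {F : Type} [Field F] (σ : K →+* F) (x y : Fin n → F) : Prop :=
  ∃ l, (∃ a, eval₂ σ x (φ.F l a) ≠ 0) ∧ ∃ c : F, c ≠ 0 ∧ ∀ a, y a = c * eval₂ σ x (φ.F l a)

/-- `ψ (φ x) = x` on `V(I)` -/
def LeftInverse (ψ φ : Morphism I) : Prop :=
  ∀ l l' a b, X a * bind₁ (φ.F l) (ψ.F l' b) - X b * bind₁ (φ.F l) (ψ.F l' a) ∈ I

/-- The homogeneous ideal of the set of the points given by the vectors in `Y`: the polynomials which vanish at all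
multiples of the vectors in `Y`. -/
def idealOf (Y : Set (Fin n → K)) : Ideal (MvPolynomial (Fin n) K) where
  carrier := {f | ∀ y ∈ Y, ∀ t : K, eval (t • y) f = 0}
  add_mem' := by
    intro f g hf hg y hy t
    rw [map_add, hf y hy t, hg y hy t, add_zero]
  zero_mem' := fun y _ t => map_zero _
  smul_mem' := by
    intro c f hf y hy t
    rw [smul_eq_mul, map_mul, hf y hy t, mul_zero]

/-- The rational points of `V(I)` which are zeros of `J`. -/
def rationalPoints (I J : Ideal (MvPolynomial (Fin n) K)) : Set (Fin n → K) :=
  {y | IsPoint (RingHom.id K) I y ∧ ∀ f ∈ J, eval y f = 0}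

/-- The ideal of the image under `φ` of the closed subset with the ideal `J`. -/
noncomputable def image (φ : Morphism I) (J : Ideal (MvPolynomial (Fin n) K)) : Ideal (MvPolynomial (Fin n) K) :=
  ⨅ l, J.comap (bind₁ (φ.F l)).toRingHom

/-- The ideal of the local Zariski closure of the set of the rational points of `V(I)` at the point `x` (a point of the
product of the projective spaces over the fields `L i`): the polynomials which vanish at all multiples of all
rational points of `V(I)` in a neighbourhood of `x`. -/
def closureIdeal {r : ℕ} {L : Fin r → Type} [∀ i, NontriviallyNormedField (L i)] (σ : ∀ i, K →+* L i)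
    (I : Ideal (MvPolynomial (Fin n) K)) (x : ∀ i, Fin n → L i) : Ideal (MvPolynomial (Fin n) K) where
  carrier := {f | ∃ U : ∀ i, Set (Fin n → L i), (∀ i, U i ∈ nhds (x i)) ∧
    ∀ y : Fin n → K, IsPoint (RingHom.id K) I y → (∀ i, ∃ c : L i, c ≠ 0 ∧ c • (σ i ∘ y) ∈ U i) →
      ∀ t : K, eval (t • y) f = 0}
  add_mem' := by
    rintro f g ⟨U, hU, hf⟩ ⟨W, hW, hg⟩
    refine ⟨fun i => U i ∩ W i, fun i => Filter.inter_mem (hU i) (hW i), fun y hy h t => ?_⟩
    have h1 := hf y hy (fun i => (h i).imp fun _ hc => ⟨hc.1, hc.2.1⟩) t
    have h2 := hg y hy (fun i => (h i).imp fun _ hc => ⟨hc.1, hc.2.2⟩) t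
    rw [map_add, h1, h2, add_zero]
  zero_mem' := ⟨fun _ => Set.univ, fun _ => Filter.univ_mem, fun y _ _ t => map_zero _⟩
  smul_mem' := by
    rintro c f ⟨U, hU, hf⟩
    refine ⟨U, hU, fun y hy h t => ?_⟩
    rw [smul_eq_mul, map_mul, hf y hy h t, mul_zero]

/-- The closed subset with the ideal `J` has only finitely many images under the group generated by the `φ s`
(with inverses `ψ s`). -/
def FiniteOrbit {S : Type} (φ ψ : S → Morphism I) (J : Ideal (MvPolynomial (Fin n) K)) : Prop :=
  ∃ 𝒥 : Set (Ideal (MvPolynomial (Fin n) K)), 𝒥.Finite ∧ J ∈ 𝒥 ∧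
    ∀ s, ∀ J' ∈ 𝒥, image (φ s) J' ∈ 𝒥 ∧ image (ψ s) J' ∈ 𝒥

/-- `𝔭` is the ideal of a periodic subvariety: an irreducible closed subset with a dense set of rational points
and with a finite orbit. -/
def Periodic {S : Type} (φ ψ : S → Morphism I) (𝔭 : Ideal (MvPolynomial (Fin n) K)) : Prop :=
  𝔭.IsPrime ∧ I ≤ 𝔭 ∧ Homogeneous 𝔭 ∧ 𝔭 = idealOf (rationalPoints I 𝔭) ∧ FiniteOrbit φ ψ 𝔭

/-- The closed subset with the ideal `𝔭` is not a rational point. -/
def NotPoint (𝔭 : Ideal (MvPolynomial (Fin n) K)) : Prop := ∀ P : Fin n → K, 𝔭 ≠ idealOf {P}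

/-- `y` is in the orbit of `x` under the group generated by the `φ s` (with inverses `ψ s`). -/
inductive InOrbit {S : Type} (φ ψ : S → Morphism I) {F : Type} [Field F] (σ : K →+* F) (x : Fin n → F) :
    (Fin n → F) → Prop
  | refl : InOrbit φ ψ σ x x
  | forward (s : S) (y z : Fin n → F) : InOrbit φ ψ σ x y → (φ s).Maps σ y z → InOrbit φ ψ σ x z
  | backward (s : S) (y z : Fin n → F) : InOrbit φ ψ σ x y → (ψ s).Maps σ y z → InOrbit φ ψ σ x z

/-- All points of the closed subset with the ideal `J`, over all extension fields of `K`, have finite orbits. -/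
def AllOrbitsFinite {S : Type} (φ ψ : S → Morphism I) (J : Ideal (MvPolynomial (Fin n) K)) : Prop :=
  ∀ (F : Type) [Field F] (τ : K →+* F) (x : Fin n → F), IsPoint τ J x →
    ∃ E : Finset (Fin n → F), ∀ y, InOrbit φ ψ τ x y → ∃ e ∈ E, ∃ c : F, c ≠ 0 ∧ y = c • e

/-- The sets `Z_x` take only finitely many values (given by their ideals). -/
def FinitelyManyClosures {r : ℕ} {L : Fin r → Type} [∀ i, NontriviallyNormedField (L i)] (σ : ∀ i, K →+* L i)
    (I : Ideal (MvPolynomial (Fin n) K)) : Prop :=
  {J | ∃ x : ∀ i, Fin n → L i, (∀ i, x i ≠ 0) ∧ J = closureIdeal σ I x}.Finite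

/-- the morphism in the sense of the library -/
def conv (φ : Morphism I) : Pool.Agent.Q44.SA.Mor I := ⟨φ.p, φ.d, φ.F, φ.pos, φ.hom, φ.base, φ.agree, φ.into⟩

theorem reach_of_inOrbit {S : Type} {φ ψ : S → Morphism I} {F : Type} [Field F] {σ : K →+* F} {x y : Fin n → F}
    (h : InOrbit φ ψ σ x y) :
    ∃ w, Pool.Agent.Q44.PE.Reach (fun s => conv (φ s)) (fun s => conv (ψ s)) σ w x y := by
  induction h with
  | refl => exact ⟨[], 1, one_ne_zero, (one_smul _ _).symm⟩
  | forward s y z _ hz ih =>
    obtain ⟨w, hw⟩ := ih
    exact ⟨(s, true) :: w, y, hw, hz⟩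
  | backward s y z _ hz ih =>
    obtain ⟨w, hw⟩ := ih
    exact ⟨(s, false) :: w, y, hw, hz⟩

/-- **Mazur's question for varieties with many automorphisms.** -/
theorem result (K : Type) [Field K] [NumberField K] (n : ℕ) (I : Ideal (MvPolynomial (Fin n) K))
    -- an irreducible projective variety
    (hI : I.IsPrime) (hom : Homogeneous I)
    -- finitely many automorphisms
    (S : Type) [Finite S] (φ ψ : S → Morphism I) (h₁ : ∀ s, LeftInverse (ψ s) (φ s))
    (h₂ : ∀ s, LeftInverse (φ s) (ψ s)) :
    ∃ N : ℕ, N ≠ 0 ∧ ∀ (r : ℕ) (L : Fin r → Type) [∀ i, NontriviallyNormedField (L i)]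
      [∀ i, IsUltrametricDist (L i)] [∀ i, CompleteSpace (L i)] (σ : ∀ i, K →+* L i),
      (∀ i, DenseRange (σ i)) → (∀ i, ‖(N : L i)‖ = 1) →
      -- (1) all the sets `Z_x` and their irreducible components have finite orbits
      (∀ x : ∀ i, Fin n → L i, (∀ i, x i ≠ 0) →
        FiniteOrbit φ ψ (closureIdeal σ I x) ∧ closureIdeal σ I x = sInf (closureIdeal σ I x).minimalPrimes ∧
        ∀ 𝔭 ∈ (closureIdeal σ I x).minimalPrimes, Periodic φ ψ 𝔭 ∧ (∀ i, ∀ f ∈ 𝔭, eval₂ (σ i) (x i) f = 0) ∧
          (0 < r → ∀ P, 𝔭 = idealOf {P} → closureIdeal σ I x = 𝔭 ∧ ∀ i, ∃ c : L i, c ≠ 0 ∧ x i = c • (σ i ∘ P))) ∧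
      -- (2) the points which are not on a periodic subvariety other than `X`
      (∀ x : ∀ i, Fin n → L i, (∀ i, x i ≠ 0) →
        (∀ 𝔭, Periodic φ ψ 𝔭 → (∀ i, ∀ f ∈ 𝔭, eval₂ (σ i) (x i) f = 0) → 𝔭 = I) →
        closureIdeal σ I x = ⊤ ∨ closureIdeal σ I x = I) ∧
      (∀ P, IsPoint (RingHom.id K) I P → (∀ 𝔭, Periodic φ ψ 𝔭 → 𝔭 ≤ idealOf {P} → 𝔭 = I) →
        closureIdeal σ I (fun i => σ i ∘ P) = I) ∧
      -- (3) finitely many values
      ({𝔭 | Periodic φ ψ 𝔭 ∧ NotPoint 𝔭}.Finite →
        (∀ 𝔭, Periodic φ ψ 𝔭 → NotPoint 𝔭 → AllOrbitsFinite φ ψ 𝔭 → FinitelyManyClosures σ 𝔭) →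
        FinitelyManyClosures σ I) := by
  obtain ⟨N, hN, h⟩ := Pool.Agent.Q44.PE.all3 K n I hI hom S (fun s => conv (φ s)) (fun s => conv (ψ s)) h₁ h₂
  refine ⟨N, hN, fun r L _ _ _ σ hσ hL => ?_⟩
  obtain ⟨g1, g2, g2', g3⟩ := h r L σ hσ hL
  refine ⟨g1, g2, g2', fun hf hq => g3 hf fun 𝔭 hp hnp hall => hq 𝔭 hp hnp ?_⟩
  intro F _ τ x hx
  obtain ⟨E, hE⟩ := hall F τ x hx
  refine ⟨E, fun y hy => ?_⟩
  obtain ⟨w, hw⟩ := reach_of_inOrbit hy
  exact hE w y hw

end Pool.Agent.Results.MP_f9f755_nt.PeriodicSubvarieties
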