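import Pool.Agent.Q44.WK.All

/-!
# Mazur's question for the Wehler K3 surfaces (helper44)

`K` is a number field and `X` is an irreducible surface in `ℙ² × ℙ²` given by a form of bidegree (1,1) and a form
of bidegree (2,2) over `K`, such that all fibres of the two projections `X → ℙ²` are finite. For instance the smooth
surfaces of this kind with finite fibres are K3 surfaces, and the general one has Picard number two and no
fibration by curves of genus one. `X` may be singular.

`L` is a complete nonarchimedean field with a homomorphism `σ : K →+* L` of dense range, so the completion of `K` at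
a finite place. For all places outside a finite set the local Zariski closures `Z_x` of the rational points are
determined: `Z_P = X` for all rational points `P` outside a finite set `E` which does not depend on the place, and
otherwise `Z_x` is empty, a point of `E`, or `X`. The statement on the rational points holds simultaneously for finitely
many places: every neighbourhood of `P` in the product of the sets `X(K_v)` contains a Zariski dense set of rational
points.

Idea of the proof. Each projection is of degree two and gives an involution of `X`. Applying them alternately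
to `P = (z 0, z 1)` one gets a chain `z 0, z 1, z 2, ...` with the rational points `(z (2k), z (2k+1))`. At the places
where the reductions of the fibres are finite (and 2 is a unit) the involutions are isometries, so for some
`m > 0` all points `P_j = (z (2mj), z (2mj+1))` are close to `P`. By the inequality
`h(z (k-1)) + h(z (k+1)) ≥ 4 h(z k) - c` of heights (Silverman) the heights in the chain grow exponentially, unless `P`
is in the finite set `E` of the points with small heights. If the `P_j` were contained in a curve in `X`, then the
first coordinates of `P_j` and of `P_(j+k)` would be related by equations of bounded degree, where the bound does not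
depend on `k` (the coordinates of the points of the chain over an ultrapower of `K` generate all the same field,
up to extensions of degree at most 8), so that `h(P_(j+k)) ≤ 16 α h(P_j) + c_k` for infinitely many `j`, with `α` not
depending on `k`. This contradicts the exponential growth.
-/

set_option autoImplicit false

namespace Pool.Agent.Results.MP_f9f755_nt.WehlerK3Surfaces

open MvPolynomial Pool.Agent.Q44.WK

/-- **Mazur's question for the Wehler K3 surfaces.** -/
theorem result (K : Type) [Field K] [NumberField K]
    -- the coefficients of forms of bidegree (1,1) and (2,2)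
    (D : Dat K)
    -- the surface `X` is irreducible
    (hX : D.ideal.IsPrime)
    -- the fibres of the first projection are finite: `lin x` is not zero, and `quad x` is not zero on the line `lin x = 0`
    (h₁ : ∀ x : V (AlgebraicClosure K), x ≠ 0 →
      (∃ y, (D.map (algebraMap K (AlgebraicClosure K))).lin x y ≠ 0) ∧
      ∃ y, (D.map (algebraMap K (AlgebraicClosure K))).lin x y = 0 ∧
        (D.map (algebraMap K (AlgebraicClosure K))).quad x y ≠ 0)
    -- the fibres of the second projection are finite
    (h₂ : ∀ y : V (AlgebraicClosure K), y ≠ 0 →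
      (∃ x, (D.map (algebraMap K (AlgebraicClosure K))).lin x y ≠ 0) ∧
      ∃ x, (D.map (algebraMap K (AlgebraicClosure K))).lin x y = 0 ∧
        (D.map (algebraMap K (AlgebraicClosure K))).quad x y ≠ 0) :
    ∃ (E : Finset (V K × V K)) (N : ℕ), N ≠ 0 ∧ (∀ e ∈ E, D.On e.1 e.2) ∧
      -- (1) the rational points outside `E`, for finitely many places
      (∀ (r : ℕ) (L : Fin r → Type) [∀ i, NontriviallyNormedField (L i)] [∀ i, IsUltrametricDist (L i)]
        [∀ i, CompleteSpace (L i)] (σ : ∀ i, K →+* L i), (∀ i, DenseRange (σ i)) → (∀ i, ‖(N : L i)‖ = 1) →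
        ∀ x y : V K, D.On x y → (∀ e ∈ E, ¬ Same x y e.1 e.2) →
        ∀ (U W : ∀ i, Set (V (L i))), (∀ i, U i ∈ nhds (σ i ∘ x) ∧ W i ∈ nhds (σ i ∘ y)) →
        ∀ f : MvPolynomial (Fin 3 ⊕ Fin 3) K,
          (∀ P Q : V K, D.On P Q → (∀ i, (∃ c : L i, c ≠ 0 ∧ c • (σ i ∘ P) ∈ U i) ∧
            ∃ c : L i, c ≠ 0 ∧ c • (σ i ∘ Q) ∈ W i) → ∀ a b : K, eval (Sum.elim (a • P) (b • Q)) f = 0) →
          f ∈ D.ideal) ∧
      -- for one place
      ∀ (L : Type) [NontriviallyNormedField L] [IsUltrametricDist L] [CompleteSpace L] (σ : K →+* L),
        DenseRange σ → ‖(N : L)‖ = 1 →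
        -- (2) all local Zariski closures
        (∀ x y : V L, x ≠ 0 → y ≠ 0 →
          D.closureIdeal σ x y = Set.univ ∨ D.closureIdeal σ x y = D.ideal ∨
            ∃ e ∈ E, Same x y (σ ∘ e.1) (σ ∘ e.2) ∧ D.closureIdeal σ x y = pointIdeal e.1 e.2) ∧
        -- (3) finitely many values
        {J : Set (MvPolynomial (Fin 3 ⊕ Fin 3) K) | ∃ x y : V L, x ≠ 0 ∧ y ≠ 0 ∧ (D.map σ).lin x y = 0 ∧
          (D.map σ).quad x y = 0 ∧ J = D.closureIdeal σ x y}.Finite := by
  have e₂ : (D.swap.map (algebraMap K (AlgebraicClosure K))).Fibres := by
    intro y hy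
    have e : D.swap.map (algebraMap K (AlgebraicClosure K)) = (D.map (algebraMap K (AlgebraicClosure K))).swap := rfl
    obtain ⟨⟨x, hx⟩, x', hx', hx''⟩ := h₂ y hy
    refine ⟨⟨x, ?_⟩, x', ?_, ?_⟩
    · rw [e, Pool.Agent.Q150.WK.UN.lin_swap]
      exact hx
    · rw [e, Pool.Agent.Q150.WK.UN.lin_swap]
      exact hx'
    · rw [e, Pool.Agent.Q150.WK.UN.quad_swap]
      exact hx''
  obtain ⟨E, N, hN, hE, h1, h2⟩ := all K D hX h₁ e₂
  refine ⟨E, N, hN, hE, h1, ?_⟩
  intro L _ _ _ σ hσ hL
  have h3 := h2 L σ hσ hL
  refine ⟨h3, ?_⟩
  have hfin : (({Set.univ, (D.ideal : Set (MvPolynomial (Fin 3 ⊕ Fin 3) K))} :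
      Set (Set (MvPolynomial (Fin 3 ⊕ Fin 3) K))) ∪ (fun e : V K × V K => pointIdeal e.1 e.2) '' (E : Set (V K × V K))).Finite :=
    (Set.toFinite _).union (E.finite_toSet.image _)
  refine hfin.subset ?_
  rintro J ⟨x, y, hx, hy, -, -, rfl⟩
  rcases h3 x y hx hy with h | h | ⟨e, he, -, h⟩
  · left; left; exact h
  · left; right; exact h
  · right; exact ⟨e, he, h.symm⟩

end Pool.Agent.Results.MP_f9f755_nt.WehlerK3Surfaces
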